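import Mathlib

/-!
# T3, part 1: linear elimination along a stable flag (helper43's Lemma 1)

`V` a finite abelian `p`-group, `X` a `p`-group acting by `ρ`, `J` a commutative additive subgroup of `End V` which is
normalised by `X` (and closed under multiplication by `ρ a`, `a ∈ A`). Then there is `J' ≤ J` with the same properties, `J' J' = 0` and
`|J / J'| ≤ |V|`.
-/

set_option autoImplicit false

namespace Pool.Agent.Helper92.T3

variable {X V : Type*} [Group X] [AddCommGroup V]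

/-- a commutative additive subgroup of `End V`, normalised by `X` and stable under the elements of `A` -/
structure Adm (ρ : X →* AddMonoid.End V) (A : Set X) (J : AddSubgroup (AddMonoid.End V)) :
    Prop where
  comm : ∀ s ∈ J, ∀ t ∈ J, s * t = t * s
  conj : ∀ x : X, ∀ s ∈ J, ρ x * s * ρ x⁻¹ ∈ J
  left : ∀ a ∈ A, ∀ s ∈ J, ρ a * s ∈ J

theorem rho_inv (ρ : X →* AddMonoid.End V) (x : X) (v : V) : ρ x⁻¹ (ρ x v) = v := by
  have h : ρ x⁻¹ * ρ x = 1 := by rw [← map_mul, inv_mul_cancel, map_one]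
  exact congrArg (fun f : AddMonoid.End V => f v) h

/-- a vector which is fixed modulo a proper stable subgroup -/
theorem exists_fixed {p : ℕ} [Fact p.Prime] [Finite V] (hX : IsPGroup p X)
    (hV : ∃ k, Nat.card V = p ^ k) (ρ : X →* AddMonoid.End V) (W : AddSubgroup V)
    (hW : ∀ x, ∀ w ∈ W, ρ x w ∈ W) (hne : W ≠ ⊤) :
    ∃ v, v ∉ W ∧ ∀ x, ρ x v - v ∈ W := by
  have hle : ∀ x, W ≤ W.comap (ρ x : V →+ V) := fun x w hw => hW x w hw
  let _ : MulAction X (V ⧸ W) :=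
    { smul := fun x q => QuotientAddGroup.map W W (ρ x : V →+ V) (hle x) q
      one_smul := by
        intro q
        induction q using QuotientAddGroup.induction_on with
        | H v =>
          show ((ρ 1 v : V) : V ⧸ W) = (v : V ⧸ W)
          rw [map_one]
          rfl
      mul_smul := by
        intro x y q
        induction q using QuotientAddGroup.induction_on with
        | H v =>
          show ((ρ (x * y) v : V) : V ⧸ W) = ((ρ x (ρ y v) : V) : V ⧸ W)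
          rw [map_mul]
          rfl }
  have hcard : p ∣ Nat.card (V ⧸ W) := by
    obtain ⟨k, hk⟩ := hV
    have h1 : Nat.card (V ⧸ W) ∣ p ^ k := by
      rw [← hk]
      exact AddSubgroup.card_quotient_dvd_card W
    obtain ⟨j, -, hj⟩ := (Nat.dvd_prime_pow Fact.out).1 h1
    rcases Nat.eq_zero_or_pos j with h0 | h0
    · exfalso
      apply hne
      rw [h0, pow_zero] at hj
      exact AddSubgroup.index_eq_one.1 hj
    · rw [hj]
      exact dvd_pow_self p h0.ne'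
  have h0 : (0 : V ⧸ W) ∈ MulAction.fixedPoints X (V ⧸ W) := by
    intro x
    exact map_zero (QuotientAddGroup.map W W (ρ x : V →+ V) (hle x))
  obtain ⟨b, hb, hb0⟩ := hX.exists_fixed_point_of_prime_dvd_card_of_fixed_point (V ⧸ W) hcard h0
  induction b using QuotientAddGroup.induction_on with
  | H v =>
    refine ⟨v, fun hv => hb0 ?_, fun x => ?_⟩
    · exact ((QuotientAddGroup.eq_zero_iff v).2 hv).symm
    · have h1 : ((ρ x v : V) : V ⧸ W) = (v : V ⧸ W) := hb x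
      have h2 : ((ρ x v - v : V) : V ⧸ W) = 0 := by
        rw [QuotientAddGroup.mk_sub, h1, sub_self]
      exact (QuotientAddGroup.eq_zero_iff _).1 h2

/-- the state of the elimination after the stable subgroup `T` -/
def Stage (ρ : X →* AddMonoid.End V) (A : Set X) (J : AddSubgroup (AddMonoid.End V))
    (T : AddSubgroup V) : Prop :=
  (∀ x, ∀ v ∈ T, ρ x v ∈ T) ∧ ∃ J' ≤ J, Adm ρ A J' ∧ ∃ W : AddSubgroup V,
    (∀ x, ∀ w ∈ W, ρ x w ∈ W) ∧ (∀ s ∈ J', ∀ v ∈ T, s v ∈ W) ∧ (∀ s ∈ J', ∀ w ∈ W, s w = 0) ∧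
    J'.relIndex J * W.index = Nat.card V

theorem stage_step {p : ℕ} [Fact p.Prime] [Finite V] (hX : IsPGroup p X)
    (hV : ∃ k, Nat.card V = p ^ k) (ρ : X →* AddMonoid.End V) (A : Set X)
    (J : AddSubgroup (AddMonoid.End V)) (T : AddSubgroup V) (h : Stage ρ A J T) (hne : T ≠ ⊤) :
    ∃ T', T < T' ∧ Stage ρ A J T' := by
  obtain ⟨hT, J1, hJ1, hA1, W1, hW1, hTW, hJW, hidx⟩ := h
  obtain ⟨v, hv, hfix⟩ := exists_fixed hX hV ρ T hT hne
  -- the new subgroups
  let f : AddMonoid.End V →+ V ⧸ W1 :=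
    (QuotientAddGroup.mk' W1).comp (AddMonoidHom.eval v)
  have hf : ∀ s, f s = ((s v : V) : V ⧸ W1) := fun s => rfl
  let J2 : AddSubgroup (AddMonoid.End V) := J1 ⊓ f.ker
  let W2 : AddSubgroup V := (J1.map f).comap (QuotientAddGroup.mk' W1)
  have hJ2 : ∀ s, s ∈ J2 ↔ s ∈ J1 ∧ s v ∈ W1 := by
    intro s
    show s ∈ J1 ∧ f s = 0 ↔ _
    rw [hf, QuotientAddGroup.eq_zero_iff]
  have hW2 : ∀ w, w ∈ W2 ↔ ∃ s ∈ J1, w - s v ∈ W1 := by
    intro w
    constructor
    · rintro ⟨s, hs, hsw⟩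
      refine ⟨s, hs, ?_⟩
      have h1 : ((s v : V) : V ⧸ W1) = (w : V ⧸ W1) := hsw
      rw [← QuotientAddGroup.eq_zero_iff, QuotientAddGroup.mk_sub, h1, sub_self]
    · rintro ⟨s, hs, hsw⟩
      refine ⟨s, hs, ?_⟩
      show ((s v : V) : V ⧸ W1) = (w : V ⧸ W1)
      have h1 := (QuotientAddGroup.eq_zero_iff (w - s v)).2 hsw
      rw [QuotientAddGroup.mk_sub, sub_eq_zero] at h1
      exact h1.symm
  have hle : W1 ≤ W2 := by
    intro w hw
    rw [hW2]
    exact ⟨0, J1.zero_mem, by simpa using hw⟩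
  refine ⟨T ⊔ AddSubgroup.zmultiples v, ?_, ?_, J2, inf_le_left.trans hJ1, ⟨?_, ?_, ?_⟩, W2,
    ?_, ?_, ?_, ?_⟩
  · refine lt_of_le_of_ne le_sup_left fun he => hv ?_
    rw [he]
    exact AddSubgroup.mem_sup_right (AddSubgroup.mem_zmultiples v)
  · intro x u hu
    obtain ⟨t, ht, c, hc, rfl⟩ := AddSubgroup.mem_sup.1 hu
    obtain ⟨n, rfl⟩ := AddSubgroup.mem_zmultiples_iff.1 hc
    rw [map_add, map_zsmul]
    have h1 : ρ x v = (ρ x v - v) + v := by abel
    rw [h1, smul_add, ← add_assoc]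
    exact AddSubgroup.add_mem _ (AddSubgroup.mem_sup_left (T.add_mem (hT x t ht)
      (T.zsmul_mem (hfix x) n))) (AddSubgroup.mem_sup_right
      (AddSubgroup.mem_zmultiples_iff.2 ⟨n, rfl⟩))
  · intro s hs t ht
    exact hA1.comm s ((hJ2 s).1 hs).1 t ((hJ2 t).1 ht).1
  · intro x s hs
    obtain ⟨hs1, hs2⟩ := (hJ2 s).1 hs
    refine (hJ2 _).2 ⟨hA1.conj x s hs1, ?_⟩
    show ρ x (s (ρ x⁻¹ v)) ∈ W1
    have h1 : ρ x⁻¹ v = (ρ x⁻¹ v - v) + v := by abel
    rw [h1, map_add]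
    exact hW1 x _ (W1.add_mem (hTW s hs1 _ (hfix x⁻¹)) hs2)
  · intro a ha s hs
    obtain ⟨hs1, hs2⟩ := (hJ2 s).1 hs
    exact (hJ2 _).2 ⟨hA1.left a ha s hs1, hW1 a _ hs2⟩
  · intro x w hw
    obtain ⟨s, hs, hsw⟩ := (hW2 w).1 hw
    refine (hW2 _).2 ⟨ρ x * s * ρ x⁻¹, hA1.conj x s hs, ?_⟩
    show ρ x w - ρ x (s (ρ x⁻¹ v)) ∈ W1
    have h1 : ρ x⁻¹ v = (ρ x⁻¹ v - v) + v := by abel
    rw [← map_sub, h1, map_add]
    have h2 : w - (s (ρ x⁻¹ v - v) + s v) = (w - s v) - s (ρ x⁻¹ v - v) := by abel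
    rw [h2]
    exact hW1 x _ (W1.sub_mem hsw (hTW s hs _ (hfix x⁻¹)))
  · intro s hs u hu
    obtain ⟨hs1, hs2⟩ := (hJ2 s).1 hs
    obtain ⟨t, ht, c, hc, rfl⟩ := AddSubgroup.mem_sup.1 hu
    obtain ⟨n, rfl⟩ := AddSubgroup.mem_zmultiples_iff.1 hc
    rw [map_add, map_zsmul]
    exact hle (W1.add_mem (hTW s hs1 t ht) (W1.zsmul_mem hs2 n))
  · intro s hs w hw
    obtain ⟨hs1, hs2⟩ := (hJ2 s).1 hs
    obtain ⟨t, ht, htw⟩ := (hW2 w).1 hw
    have h1 : w = (w - t v) + t v := by abel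
    rw [h1, map_add, hJW s hs1 _ htw, zero_add]
    have h2 : s (t v) = t (s v) :=
      congrArg (fun g : AddMonoid.End V => g v) (hA1.comm s hs1 t ht)
    rw [h2]
    exact hJW t ht _ hs2
  · have e1 : J2.relIndex J1 = Nat.card (J1.map f) := by
      show (J1 ⊓ f.ker).relIndex J1 = _
      rw [AddSubgroup.inf_relIndex_left, AddSubgroup.relIndex_ker]
    have e2 : J2.relIndex J = J2.relIndex J1 * J1.relIndex J :=
      (AddSubgroup.relIndex_mul_relIndex J2 J1 J inf_le_left hJ1).symm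
    have e3 : W2.index = (J1.map f).index :=
      AddSubgroup.index_comap_of_surjective _ (QuotientAddGroup.mk'_surjective W1)
    have e4 : Nat.card (J1.map f) * (J1.map f).index = W1.index :=
      AddSubgroup.card_mul_index _
    rw [e2, e1, e3, ← hidx, ← e4]
    ring

theorem elim {p : ℕ} [Fact p.Prime] [Finite V] (hX : IsPGroup p X)
    (hV : ∃ k, Nat.card V = p ^ k) (ρ : X →* AddMonoid.End V) (A : Set X)
    (J : AddSubgroup (AddMonoid.End V)) (hJ : Adm ρ A J) :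
    ∃ J' ≤ J, Adm ρ A J' ∧ (∀ s ∈ J', ∀ t ∈ J', s * t = 0) ∧ J'.relIndex J ≤ Nat.card V := by
  have h0 : Stage ρ A J ⊥ := by
    refine ⟨fun x v hv => ?_, J, le_rfl, hJ, ⊥, fun x w hw => ?_, fun s _ v hv => ?_,
      fun s _ w hw => ?_, ?_⟩
    · rw [AddSubgroup.mem_bot] at hv ⊢
      rw [hv, map_zero]
    · rw [AddSubgroup.mem_bot] at hw ⊢
      rw [hw, map_zero]
    · rw [AddSubgroup.mem_bot] at hv ⊢
      rw [hv, map_zero]
    · rw [AddSubgroup.mem_bot] at hw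
      rw [hw, map_zero]
    · rw [AddSubgroup.relIndex_self, one_mul, AddSubgroup.index_bot]
  have h1 : Stage ρ A J ⊤ := by
    have hfin : {T : AddSubgroup V | Stage ρ A J T}.Finite := Set.toFinite _
    obtain ⟨T, hT, hmax⟩ := hfin.exists_maximal ⟨⊥, h0⟩
    by_cases hne : T = ⊤
    · rw [hne] at hT
      exact hT
    · obtain ⟨T', hlt, hT'⟩ := stage_step hX hV ρ A J T hT hne
      exact absurd (hmax hT' hlt.le) (not_le_of_gt hlt)
  obtain ⟨-, J', hJ', hA', W, -, hTW, hJW, hidx⟩ := h1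
  refine ⟨J', hJ', hA', fun s hs t ht => ?_, ?_⟩
  · ext v
    exact hJW s hs _ (hTW t ht v (AddSubgroup.mem_top v))
  · have h2 : 0 < W.index := Nat.pos_of_ne_zero AddSubgroup.index_ne_zero_of_finite
    calc J'.relIndex J ≤ J'.relIndex J * W.index := Nat.le_mul_of_pos_right _ h2
      _ = Nat.card V := hidx

end Pool.Agent.Helper92.T3
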