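import Mathlib
import Pool.Agent.Helper92.T3.Elim

/-!
# T3, part 2 (helper43's Theorem T3)

A finite `p`-group `X` acting faithfully on a finite abelian `p`-group `V` such that no `u ≠ 1` in `X` has `(u - 1)^4 = 0` on `V` satisfies
`|X| ≤ |V|^2`.
-/

set_option autoImplicit false

namespace Pool.Agent.Helper92.T3

open Subgroup

variable {X V : Type*} [Group X] [AddCommGroup V]

/-- the augmentation ideal of `Z[B]` in `End V` -/
def aug (ρ : X →* AddMonoid.End V) (B : Subgroup X) : AddSubgroup (AddMonoid.End V) :=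
  AddSubgroup.closure {s | ∃ b ∈ B, s = ρ b - 1}

/-- its square -/
def aug2 (ρ : X →* AddMonoid.End V) (B : Subgroup X) : AddSubgroup (AddMonoid.End V) :=
  AddSubgroup.closure {s | ∃ b ∈ B, ∃ c ∈ B, s = (ρ b - 1) * (ρ c - 1)}

theorem rho_conj (ρ : X →* AddMonoid.End V) (x b : X) :
    ρ x * (ρ b - 1) * ρ x⁻¹ = ρ (x * b * x⁻¹) - 1 := by
  rw [mul_sub, sub_mul, mul_one, ← map_mul, ← map_mul, ← map_mul, mul_inv_cancel, map_one]

theorem aug2_le_aug (ρ : X →* AddMonoid.End V) (B : Subgroup X) : aug2 ρ B ≤ aug ρ B := by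
  refine (AddSubgroup.closure_le _).2 ?_
  rintro s ⟨b, hb, c, hc, rfl⟩
  have h : (ρ b - 1) * (ρ c - 1) = (ρ (b * c) - 1) - (ρ b - 1) - (ρ c - 1) := by
    rw [map_mul]
    noncomm_ring
  rw [h]
  exact AddSubgroup.sub_mem _ (AddSubgroup.sub_mem _
    (AddSubgroup.subset_closure ⟨_, B.mul_mem hb hc, rfl⟩)
    (AddSubgroup.subset_closure ⟨_, hb, rfl⟩)) (AddSubgroup.subset_closure ⟨_, hc, rfl⟩)

theorem aug_comm (ρ : X →* AddMonoid.End V) {B : Subgroup X}
    (hB : ∀ a ∈ B, ∀ b ∈ B, a * b = b * a) :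
    ∀ s ∈ aug ρ B, ∀ t ∈ aug ρ B, s * t = t * s := by
  intro s hs t ht
  induction hs using AddSubgroup.closure_induction with
  | mem s hs =>
    obtain ⟨b, hb, rfl⟩ := hs
    induction ht using AddSubgroup.closure_induction with
    | mem t ht =>
      obtain ⟨c, hc, rfl⟩ := ht
      have h : ρ b * ρ c = ρ c * ρ b := by rw [← map_mul, ← map_mul, hB b hb c hc]
      have h1 : (ρ b - 1) * (ρ c - 1) = ρ b * ρ c - ρ b - ρ c + 1 := by noncomm_ring
      have h2 : (ρ c - 1) * (ρ b - 1) = ρ c * ρ b - ρ b - ρ c + 1 := by noncomm_ring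
      rw [h1, h2, h]
    | zero => simp
    | add t t' _ _ h1 h2 => rw [mul_add, add_mul, h1, h2]
    | neg t _ h1 => rw [mul_neg, neg_mul, h1]
  | zero => simp
  | add s s' _ _ h1 h2 => rw [mul_add, add_mul, h1, h2]
  | neg s _ h1 => rw [mul_neg, neg_mul, h1]

theorem aug_adm (ρ : X →* AddMonoid.End V) {A : Subgroup X} [A.Normal]
    (hA : ∀ a ∈ A, ∀ b ∈ A, a * b = b * a) : Adm ρ (A : Set X) (aug ρ A) := by
  refine ⟨aug_comm ρ hA, fun x s hs => ?_, fun a ha s hs => ?_⟩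
  · induction hs using AddSubgroup.closure_induction with
    | mem s hs =>
      obtain ⟨b, hb, rfl⟩ := hs
      rw [rho_conj]
      exact AddSubgroup.subset_closure ⟨_, Normal.conj_mem inferInstance b hb x, rfl⟩
    | zero => simp
    | add s s' _ _ h1 h2 =>
      rw [mul_add, add_mul]
      exact AddSubgroup.add_mem _ h1 h2
    | neg s _ h1 =>
      rw [mul_neg, neg_mul]
      exact AddSubgroup.neg_mem _ h1
  · induction hs using AddSubgroup.closure_induction with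
    | mem s hs =>
      obtain ⟨b, hb, rfl⟩ := hs
      have h : ρ a * (ρ b - 1) = (ρ (a * b) - 1) - (ρ a - 1) := by
        rw [map_mul]
        noncomm_ring
      rw [h]
      exact AddSubgroup.sub_mem _ (AddSubgroup.subset_closure ⟨_, A.mul_mem ha hb, rfl⟩)
        (AddSubgroup.subset_closure ⟨_, ha, rfl⟩)
    | zero => simp
    | add s s' _ _ h1 h2 =>
      rw [mul_add]
      exact AddSubgroup.add_mem _ h1 h2
    | neg s _ h1 =>
      rw [mul_neg]
      exact AddSubgroup.neg_mem _ h1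

theorem aug2_adm (ρ : X →* AddMonoid.End V) {A : Subgroup X} [A.Normal]
    (hA : ∀ a ∈ A, ∀ b ∈ A, a * b = b * a) : Adm ρ (A : Set X) (aug2 ρ A) := by
  refine ⟨fun s hs t ht => aug_comm ρ hA s (aug2_le_aug ρ A hs) t (aug2_le_aug ρ A ht),
    fun x s hs => ?_, fun a ha s hs => ?_⟩
  · induction hs using AddSubgroup.closure_induction with
    | mem s hs =>
      obtain ⟨b, hb, c, hc, rfl⟩ := hs
      have h : ρ x * ((ρ b - 1) * (ρ c - 1)) * ρ x⁻¹ =
          (ρ x * (ρ b - 1) * ρ x⁻¹) * (ρ x * (ρ c - 1) * ρ x⁻¹) := by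
        have h1 : ρ x⁻¹ * ρ x = 1 := by rw [← map_mul, inv_mul_cancel, map_one]
        calc ρ x * ((ρ b - 1) * (ρ c - 1)) * ρ x⁻¹
            = ρ x * (ρ b - 1) * (1 * (ρ c - 1)) * ρ x⁻¹ := by rw [one_mul]; noncomm_ring
          _ = ρ x * (ρ b - 1) * ((ρ x⁻¹ * ρ x) * (ρ c - 1)) * ρ x⁻¹ := by rw [h1]
          _ = _ := by simp only [mul_assoc]
      rw [h, rho_conj, rho_conj]
      exact AddSubgroup.subset_closure ⟨_, Normal.conj_mem inferInstance b hb x, _,
        Normal.conj_mem inferInstance c hc x, rfl⟩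
    | zero => simp
    | add s s' _ _ h1 h2 =>
      rw [mul_add, add_mul]
      exact AddSubgroup.add_mem _ h1 h2
    | neg s _ h1 =>
      rw [mul_neg, neg_mul]
      exact AddSubgroup.neg_mem _ h1
  · induction hs using AddSubgroup.closure_induction with
    | mem s hs =>
      obtain ⟨b, hb, c, hc, rfl⟩ := hs
      have h : ρ a * ((ρ b - 1) * (ρ c - 1)) =
          (ρ (a * b) - 1) * (ρ c - 1) - (ρ a - 1) * (ρ c - 1) := by
        rw [map_mul]
        noncomm_ring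
      rw [h]
      exact AddSubgroup.sub_mem _
        (AddSubgroup.subset_closure ⟨_, A.mul_mem ha hb, _, hc, rfl⟩)
        (AddSubgroup.subset_closure ⟨_, ha, _, hc, rfl⟩)
    | zero => simp
    | add s s' _ _ h1 h2 =>
      rw [mul_add]
      exact AddSubgroup.add_mem _ h1 h2
    | neg s _ h1 =>
      rw [mul_neg]
      exact AddSubgroup.neg_mem _ h1

/-! ### a step of a central series -/

/-- between normal subgroups `B < A` of a finite `p`-group there is `e ∈ A \ B` central modulo `B` -/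
theorem exists_central {p : ℕ} [Fact p.Prime] [Finite X] (hX : IsPGroup p X) {B A : Subgroup X}
    [B.Normal] [A.Normal] (hlt : B < A) : ∃ e ∈ A, e ∉ B ∧ ∀ x, x * e * x⁻¹ * e⁻¹ ∈ B := by
  let N : Subgroup (X ⧸ B) := A.map (QuotientGroup.mk' B)
  have hN : N.Normal := Subgroup.Normal.map inferInstance _ (QuotientGroup.mk'_surjective B)
  let _ : MulAction X N :=
    { smul := fun x n => ⟨(x : X ⧸ B) * n * (x : X ⧸ B)⁻¹, hN.conj_mem n n.2 _⟩
      one_smul := by
        intro n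
        apply Subtype.ext
        show ((1 : X) : X ⧸ B) * n * ((1 : X) : X ⧸ B)⁻¹ = n
        simp
      mul_smul := by
        intro x y n
        apply Subtype.ext
        show ((x * y : X) : X ⧸ B) * n * ((x * y : X) : X ⧸ B)⁻¹ =
          (x : X ⧸ B) * ((y : X ⧸ B) * n * (y : X ⧸ B)⁻¹) * (x : X ⧸ B)⁻¹
        rw [QuotientGroup.mk_mul, mul_inv_rev]
        simp only [mul_assoc] }
  have hcard : p ∣ Nat.card N := by
    obtain ⟨k, hk⟩ := ((hX.to_quotient B).to_subgroup N).exists_card_eq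
    rcases Nat.eq_zero_or_pos k with h0 | h0
    · exfalso
      rw [h0, pow_zero] at hk
      have h1 : N = ⊥ := Subgroup.card_eq_one.1 hk
      obtain ⟨a, ha, hab⟩ := SetLike.exists_of_lt hlt
      apply hab
      have h2 : ((a : X) : X ⧸ B) ∈ N := ⟨a, ha, rfl⟩
      rw [h1, Subgroup.mem_bot] at h2
      exact (QuotientGroup.eq_one_iff a).1 h2
    · rw [hk]
      exact dvd_pow_self p h0.ne'
  have h1 : (1 : N) ∈ MulAction.fixedPoints X N := by
    intro x
    apply Subtype.ext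
    show (x : X ⧸ B) * 1 * (x : X ⧸ B)⁻¹ = 1
    rw [mul_one, mul_inv_cancel]
  obtain ⟨⟨b, hbN⟩, hb, hb1⟩ :=
    hX.exists_fixed_point_of_prime_dvd_card_of_fixed_point N hcard h1
  obtain ⟨e, he, rfl⟩ := hbN
  refine ⟨e, he, fun heB => hb1 ?_, fun x => ?_⟩
  · apply Subtype.ext
    exact ((QuotientGroup.eq_one_iff e).2 heB).symm
  · have h2 : (x : X ⧸ B) * (e : X ⧸ B) * (x : X ⧸ B)⁻¹ = (e : X ⧸ B) :=
      congrArg Subtype.val (hb x)
    rw [← QuotientGroup.eq_one_iff]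
    show (x : X ⧸ B) * (e : X ⧸ B) * (x : X ⧸ B)⁻¹ * (e : X ⧸ B)⁻¹ = 1
    rw [h2, mul_inv_cancel]

theorem sup_zpowers_normal {B : Subgroup X} [hB : B.Normal] {e : X}
    (he : ∀ x, x * e * x⁻¹ * e⁻¹ ∈ B) : (B ⊔ zpowers e).Normal := by
  refine ⟨fun n hn g => ?_⟩
  obtain ⟨b, hb, c, hc, rfl⟩ := Subgroup.mem_sup_of_normal_left.1 hn
  obtain ⟨k, rfl⟩ := Subgroup.mem_zpowers_iff.1 hc
  have h1 : g * (b * e ^ k) * g⁻¹ = (g * b * g⁻¹) * (g * e * g⁻¹) ^ k := by
    rw [conj_zpow]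
    group
  rw [h1]
  refine Subgroup.mul_mem _ (Subgroup.mem_sup_left (hB.conj_mem b hb g)) ?_
  refine Subgroup.zpow_mem _ ?_ k
  have h2 : g * e * g⁻¹ = (g * e * g⁻¹ * e⁻¹) * e := by group
  rw [h2]
  exact Subgroup.mul_mem _ (Subgroup.mem_sup_left (he g))
    (Subgroup.mem_sup_right (Subgroup.mem_zpowers e))

/-- maximal abelian normal subgroups of a finite `p`-group are self-centralising -/
theorem exists_self_centralizing {p : ℕ} [Fact p.Prime] [Finite X] (hX : IsPGroup p X) :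
    ∃ A : Subgroup X, A.Normal ∧ (∀ a ∈ A, ∀ b ∈ A, a * b = b * a) ∧
      centralizer (A : Set X) = A := by
  have hfin : {A : Subgroup X | A.Normal ∧ ∀ a ∈ A, ∀ b ∈ A, a * b = b * a}.Finite :=
    Set.toFinite _
  obtain ⟨A, ⟨hN, hab⟩, hmax⟩ := hfin.exists_maximal ⟨⊥, inferInstance, by
    intro a ha b hb
    rw [Subgroup.mem_bot] at ha hb
    rw [ha, hb]⟩
  refine ⟨A, hN, hab, ?_⟩
  have hle : A ≤ centralizer (A : Set X) := by
    intro a ha
    rw [Subgroup.mem_centralizer_iff]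
    exact fun b hb => hab b hb a ha
  by_contra hne
  have hlt : A < centralizer (A : Set X) := lt_of_le_of_ne hle (Ne.symm hne)
  obtain ⟨e, he, heA, hc⟩ := exists_central hX hlt
  have hA' : (A ⊔ zpowers e).Normal := sup_zpowers_normal hc
  have hea : ∀ a ∈ A, a * e = e * a := fun a ha => (Subgroup.mem_centralizer_iff.1 he a ha)
  have hcomm : ∀ a ∈ A ⊔ zpowers e, ∀ b ∈ A ⊔ zpowers e, a * b = b * a := by
    intro a ha b hb
    obtain ⟨a1, ha1, c, hc1, rfl⟩ := Subgroup.mem_sup_of_normal_left.1 ha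
    obtain ⟨k, rfl⟩ := Subgroup.mem_zpowers_iff.1 hc1
    obtain ⟨b1, hb1, d, hd1, rfl⟩ := Subgroup.mem_sup_of_normal_left.1 hb
    obtain ⟨l, rfl⟩ := Subgroup.mem_zpowers_iff.1 hd1
    have c1 : Commute a1 b1 := hab a1 ha1 b1 hb1
    have c2 : Commute a1 (e ^ l) := (show Commute a1 e from hea a1 ha1).zpow_right l
    have c3 : Commute (e ^ k) b1 := (show Commute e b1 from (hea b1 hb1).symm).zpow_left k
    have c4 : Commute (e ^ k) (e ^ l) := (Commute.refl e).zpow_zpow k l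
    exact (c1.mul_right c2).mul_left (c3.mul_right c4)
  have h1 := hmax ⟨hA', hcomm⟩ le_sup_left
  exact heA (h1 (Subgroup.mem_sup_right (Subgroup.mem_zpowers e)))

/-! ### the two counts -/

/-- Lemma 2: the size of an abelian normal subgroup without square-zero elements. -/
theorem card_abelian_le {p : ℕ} [Fact p.Prime] [Finite V] (hX : IsPGroup p X)
    (hV : ∃ k, Nat.card V = p ^ k) (ρ : X →* AddMonoid.End V) {A : Subgroup X} [A.Normal]
    (hA : ∀ a ∈ A, ∀ b ∈ A, a * b = b * a) (h2 : ∀ a ∈ A, (ρ a - 1) ^ 2 = 0 → a = 1) :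
    Nat.card A ≤ Nat.card V := by
  have hfinE : Finite (AddMonoid.End V) := Finite.of_injective
    (fun f : AddMonoid.End V => (f : V → V)) (fun f g h => AddMonoidHom.ext (congrFun h))
  obtain ⟨J', hJ', hadm, hsq, hidx⟩ := elim hX hV ρ (A : Set X) (aug ρ A) (aug_adm ρ hA)
  refine le_trans ?_ hidx
  have e1 : J'.relIndex (aug ρ A) = Nat.card ((aug ρ A).map (QuotientAddGroup.mk' J')) := by
    rw [← AddSubgroup.relIndex_ker, QuotientAddGroup.ker_mk']
  rw [e1]
  refine Nat.card_le_card_of_injective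
    (fun a : A => (⟨QuotientAddGroup.mk' J' (ρ a - 1),
      ⟨ρ a - 1, AddSubgroup.subset_closure ⟨a, a.2, rfl⟩, rfl⟩⟩ :
        (aug ρ A).map (QuotientAddGroup.mk' J'))) ?_
  intro a b hab
  have h3 : QuotientAddGroup.mk' J' (ρ (a : X) - 1) = QuotientAddGroup.mk' J' (ρ (b : X) - 1) :=
    congrArg Subtype.val hab
  have h4 : (ρ (a : X) - 1) - (ρ (b : X) - 1) ∈ J' := by
    rw [← QuotientAddGroup.ker_mk' J', AddMonoidHom.mem_ker, map_sub, h3, sub_self]
  have h5 : ρ ((b : X)⁻¹ * a) - 1 ∈ J' := by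
    have h6 := hadm.left _ (A.inv_mem b.2) _ h4
    have h7 : ρ (b : X)⁻¹ * ((ρ (a : X) - 1) - (ρ (b : X) - 1)) = ρ ((b : X)⁻¹ * a) - 1 := by
      have h8 : ρ (b : X)⁻¹ * ρ (b : X) = 1 := by rw [← map_mul, inv_mul_cancel, map_one]
      rw [sub_sub_sub_cancel_right, mul_sub, h8, map_mul]
    rw [h7] at h6
    exact h6
  have h9 := h2 _ (A.mul_mem (A.inv_mem b.2) a.2) (by rw [pow_two]; exact hsq _ h5 _ h5)
  apply Subtype.ext
  exact (inv_mul_eq_one.1 h9).symm

/-- Lemma 3: the index of the centraliser of an abelian normal subgroup `A` when no commutator `u ≠ 1` with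
an element of `A` has `(u - 1)^4 = 0`. -/
theorem index_centralizer_le {p : ℕ} [Fact p.Prime] [Finite V] [Finite X] (hX : IsPGroup p X)
    (hV : ∃ k, Nat.card V = p ^ k) (ρ : X →* AddMonoid.End V) {A : Subgroup X} [A.Normal]
    (hA : ∀ a ∈ A, ∀ b ∈ A, a * b = b * a)
    (h4 : ∀ x, ∀ e ∈ A, (ρ (x * e * x⁻¹ * e⁻¹) - 1) ^ 4 = 0 → x * e * x⁻¹ * e⁻¹ = 1) :
    (centralizer (A : Set X)).index ≤ Nat.card V := by
  obtain ⟨J', hJ', hadm, hsq, hidx⟩ := elim hX hV ρ (A : Set X) (aug2 ρ A) (aug2_adm ρ hA)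
  -- the claim for a normal subgroup `B` of `A`
  let P : Subgroup X → Prop := fun B => B.Normal ∧ B ≤ A ∧
    (centralizer (B : Set X)).index ≤ J'.relIndex (aug2 ρ B ⊔ J')
  have hfinE : Finite (AddMonoid.End V) := Finite.of_injective
    (fun f : AddMonoid.End V => (f : V → V)) (fun f g h => AddMonoidHom.ext (congrFun h))
  have hbot : P ⊥ := by
    refine ⟨inferInstance, bot_le, ?_⟩
    have h1 : centralizer ((⊥ : Subgroup X) : Set X) = ⊤ := by
      rw [eq_top_iff]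
      intro x _
      rw [Subgroup.mem_centralizer_iff]
      intro h hh
      rw [SetLike.mem_coe, Subgroup.mem_bot] at hh
      rw [hh, one_mul, mul_one]
    rw [h1, Subgroup.index_top]
    exact Nat.one_le_iff_ne_zero.2 AddSubgroup.index_ne_zero_of_finite
  have hstep : ∀ B, P B → B ≠ A → ∃ B', B < B' ∧ P B' := by
    rintro B ⟨hBN, hBA, hB⟩ hne
    obtain ⟨e, heA, heB, hc⟩ := exists_central hX (lt_of_le_of_ne hBA hne)
    have hN' : (B ⊔ zpowers e).Normal := sup_zpowers_normal hc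
    have heB' : e ∈ B ⊔ zpowers e := Subgroup.mem_sup_right (Subgroup.mem_zpowers e)
    refine ⟨B ⊔ zpowers e, lt_of_le_of_ne le_sup_left fun he => heB (by rw [he]; exact heB'),
      hN', sup_le hBA ((Subgroup.zpowers_le).2 heA), ?_⟩
    have hCle : centralizer ((B ⊔ zpowers e : Subgroup X) : Set X) ≤ centralizer (B : Set X) :=
      Subgroup.centralizer_le (show (B : Set X) ⊆ ((B ⊔ zpowers e : Subgroup X) : Set X) from
        fun b hb => Subgroup.mem_sup_left hb)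
    have hMle : aug2 ρ B ⊔ J' ≤ aug2 ρ (B ⊔ zpowers e) ⊔ J' := by
      refine sup_le_sup_right (AddSubgroup.closure_mono ?_) _
      rintro s ⟨b, hb, c, hc', rfl⟩
      exact ⟨b, Subgroup.mem_sup_left hb, c, Subgroup.mem_sup_left hc', rfl⟩
    rw [← Subgroup.relIndex_mul_index hCle,
      ← AddSubgroup.relIndex_mul_relIndex J' (aug2 ρ B ⊔ J') _ le_sup_right hMle, mul_comm]
    refine Nat.mul_le_mul hB ?_
    -- the injection
    have e1 : (aug2 ρ B ⊔ J').relIndex (aug2 ρ (B ⊔ zpowers e) ⊔ J') =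
        Nat.card ((aug2 ρ (B ⊔ zpowers e) ⊔ J').map (QuotientAddGroup.mk' (aug2 ρ B ⊔ J'))) := by
      rw [← AddSubgroup.relIndex_ker, QuotientAddGroup.ker_mk']
    rw [e1]
    show Nat.card (centralizer (B : Set X) ⧸
      (centralizer ((B ⊔ zpowers e : Subgroup X) : Set X)).subgroupOf (centralizer (B : Set X))) ≤ _
    refine Nat.card_le_card_of_injective
      (fun q => (⟨QuotientAddGroup.mk' (aug2 ρ B ⊔ J')
          ((ρ e - 1) * (ρ ((q.out : X) * e * (q.out : X)⁻¹ * e⁻¹) - 1)),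
        ⟨(ρ e - 1) * (ρ ((q.out : X) * e * (q.out : X)⁻¹ * e⁻¹) - 1),
          AddSubgroup.mem_sup_left (AddSubgroup.subset_closure
            ⟨e, heB', _, Subgroup.mem_sup_left (hc _), rfl⟩), rfl⟩⟩ :
        (aug2 ρ (B ⊔ zpowers e) ⊔ J').map (QuotientAddGroup.mk' (aug2 ρ B ⊔ J')))) ?_
    intro q r hqr
    have h5 := congrArg Subtype.val hqr
    simp only at h5
    obtain ⟨x, hx⟩ : ∃ x, x = q.out := ⟨_, rfl⟩
    obtain ⟨y, hy⟩ : ∃ y, y = r.out := ⟨_, rfl⟩
    rw [← hx, ← hy] at h5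
    -- `u = [x,e]`, `u' = [y,e]`
    obtain ⟨u, hu⟩ : ∃ u, u = (x : X) * e * (x : X)⁻¹ * e⁻¹ := ⟨_, rfl⟩
    obtain ⟨u', hu'⟩ : ∃ u', u' = (y : X) * e * (y : X)⁻¹ * e⁻¹ := ⟨_, rfl⟩
    rw [← hu, ← hu'] at h5
    have huB : u ∈ B := hu ▸ hc _
    have huB' : u' ∈ B := hu' ▸ hc _
    have hxc : ∀ b ∈ B, (x : X) * b = b * x := fun b hb =>
      (Subgroup.mem_centralizer_iff.1 x.2 b hb).symm
    have hyc : ∀ b ∈ B, (y : X) * b = b * y := fun b hb =>
      (Subgroup.mem_centralizer_iff.1 y.2 b hb).symm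
    -- `w = u u'⁻¹ = [z, e]` with `z = y⁻¹ x`
    obtain ⟨z, hz⟩ : ∃ z : X, z = (y : X)⁻¹ * x := ⟨_, rfl⟩
    have hzc : ∀ b ∈ B, z * b = b * z := by
      intro b hb
      rw [hz, mul_assoc, hxc b hb, ← mul_assoc]
      have h6 : (y : X)⁻¹ * b = b * (y : X)⁻¹ := by
        have h7 := hyc b hb
        calc (y : X)⁻¹ * b = (y : X)⁻¹ * (b * y) * (y : X)⁻¹ := by group
          _ = (y : X)⁻¹ * (y * b) * (y : X)⁻¹ := by rw [h7]
          _ = b * (y : X)⁻¹ := by group
      rw [h6, mul_assoc]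
    have hze : z * e * z⁻¹ = (u * u'⁻¹) * e := by
      have h6 : (x : X) * e * (x : X)⁻¹ = u * e := by rw [hu]; group
      have h7 : (y : X) * e * (y : X)⁻¹ = u' * e := by rw [hu']; group
      have h8 : (y : X)⁻¹ * e * y = u'⁻¹ * e := by
        have h9 : (y : X)⁻¹ * (u' * e) * y = e := by rw [← h7]; group
        have h10 : (y : X)⁻¹ * u' = u' * (y : X)⁻¹ := by
          have h11 := hyc u' huB'
          calc (y : X)⁻¹ * u' = (y : X)⁻¹ * (u' * y) * (y : X)⁻¹ := by group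
            _ = (y : X)⁻¹ * (y * u') * (y : X)⁻¹ := by rw [h11]
            _ = u' * (y : X)⁻¹ := by group
        calc (y : X)⁻¹ * e * y = u'⁻¹ * (u' * (y : X)⁻¹ * e * y) := by group
          _ = u'⁻¹ * ((y : X)⁻¹ * u' * e * y) := by rw [h10]
          _ = u'⁻¹ * ((y : X)⁻¹ * (u' * e) * y) := by group
          _ = u'⁻¹ * e := by rw [h9]
      have h9 : (y : X)⁻¹ * u = u * (y : X)⁻¹ := by
        have h11 := hyc u huB
        calc (y : X)⁻¹ * u = (y : X)⁻¹ * (u * y) * (y : X)⁻¹ := by group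
          _ = (y : X)⁻¹ * (y * u) * (y : X)⁻¹ := by rw [h11]
          _ = u * (y : X)⁻¹ := by group
      calc z * e * z⁻¹ = (y : X)⁻¹ * ((x : X) * e * (x : X)⁻¹) * y := by rw [hz]; group
        _ = (y : X)⁻¹ * (u * e) * y := by rw [h6]
        _ = ((y : X)⁻¹ * u) * e * y := by group
        _ = (u * (y : X)⁻¹) * e * y := by rw [h9]
        _ = u * ((y : X)⁻¹ * e * y) := by group
        _ = u * (u'⁻¹ * e) := by rw [h8]
        _ = (u * u'⁻¹) * e := by group
    have hw : z * e * z⁻¹ * e⁻¹ = u * u'⁻¹ := by rw [hze]; group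
    -- the difference is in `aug2 B + J'`
    have h6 : (ρ e - 1) * (ρ u - 1) - (ρ e - 1) * (ρ u' - 1) ∈ aug2 ρ B ⊔ J' := by
      rw [← QuotientAddGroup.ker_mk' (aug2 ρ B ⊔ J'), AddMonoidHom.mem_ker, map_sub, h5, sub_self]
    obtain ⟨s, hs, t, ht, hst⟩ := AddSubgroup.mem_sup.1 h6
    -- `z` fixes `aug2 B`
    have hzs : ∀ s ∈ aug2 ρ B, ρ z * s * ρ z⁻¹ = s := by
      intro s hs
      induction hs using AddSubgroup.closure_induction with
      | mem s hs =>
        obtain ⟨b, hb, c, hc', rfl⟩ := hs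
        have g1 : ρ z * ρ b = ρ b * ρ z := by rw [← map_mul, ← map_mul, hzc b hb]
        have g2 : ρ z * ρ c = ρ c * ρ z := by rw [← map_mul, ← map_mul, hzc c hc']
        have g3 : ρ z * ρ z⁻¹ = 1 := by rw [← map_mul, mul_inv_cancel, map_one]
        have g4 : ρ z * (ρ b - 1) = (ρ b - 1) * ρ z := by
          rw [mul_sub, sub_mul, g1, mul_one, one_mul]
        have g5 : ρ z * (ρ c - 1) = (ρ c - 1) * ρ z := by
          rw [mul_sub, sub_mul, g2, mul_one, one_mul]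
        calc ρ z * ((ρ b - 1) * (ρ c - 1)) * ρ z⁻¹
            = (ρ z * (ρ b - 1)) * (ρ c - 1) * ρ z⁻¹ := by simp only [mul_assoc]
          _ = (ρ b - 1) * (ρ z * (ρ c - 1)) * ρ z⁻¹ := by rw [g4]; simp only [mul_assoc]
          _ = (ρ b - 1) * (ρ c - 1) * (ρ z * ρ z⁻¹) := by rw [g5]; simp only [mul_assoc]
          _ = _ := by rw [g3, mul_one]
      | zero => simp
      | add s s' _ _ h1 h2 => rw [mul_add, add_mul, h1, h2]
      | neg s _ h1 => rw [mul_neg, neg_mul, h1]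
    have h7 : ρ z * ((ρ e - 1) * (ρ u - 1) - (ρ e - 1) * (ρ u' - 1)) * ρ z⁻¹ =
        (ρ (u * u'⁻¹) * ρ e - 1) * (ρ u - ρ u') := by
      have g1 : ρ z⁻¹ * ρ z = 1 := by rw [← map_mul, inv_mul_cancel, map_one]
      have g2 : ρ z * (ρ e - 1) * ρ z⁻¹ = ρ (u * u'⁻¹) * ρ e - 1 := by
        rw [rho_conj, hze, map_mul]
      have g3 : ρ z * (ρ u - ρ u') * ρ z⁻¹ = ρ u - ρ u' := by
        have k1 : ρ z * ρ u = ρ u * ρ z := by rw [← map_mul, ← map_mul, hzc u huB]
        have k2 : ρ z * ρ u' = ρ u' * ρ z := by rw [← map_mul, ← map_mul, hzc u' huB']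
        have k3 : ρ z * ρ z⁻¹ = 1 := by rw [← map_mul, mul_inv_cancel, map_one]
        rw [mul_sub, k1, k2, ← sub_mul, mul_assoc, k3, mul_one]
      calc ρ z * ((ρ e - 1) * (ρ u - 1) - (ρ e - 1) * (ρ u' - 1)) * ρ z⁻¹
          = ρ z * (ρ e - 1) * (1 * (ρ u - ρ u')) * ρ z⁻¹ := by noncomm_ring
        _ = ρ z * (ρ e - 1) * ((ρ z⁻¹ * ρ z) * (ρ u - ρ u')) * ρ z⁻¹ := by rw [g1]
        _ = (ρ z * (ρ e - 1) * ρ z⁻¹) * (ρ z * (ρ u - ρ u') * ρ z⁻¹) := by
            simp only [mul_assoc]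
        _ = _ := by rw [g2, g3]
    have h8 : (ρ (u * u'⁻¹) - 1) * ρ e * (ρ u - ρ u') ∈ J' := by
      have h9 : (ρ (u * u'⁻¹) - 1) * ρ e * (ρ u - ρ u') = ρ z * t * ρ z⁻¹ - t := by
        have h10 : ρ z * t * ρ z⁻¹ = (ρ (u * u'⁻¹) * ρ e - 1) * (ρ u - ρ u') - s := by
          rw [← h7, ← hst, mul_add, add_mul, hzs s hs]
          abel
        have h11 : t = (ρ e - 1) * (ρ u - 1) - (ρ e - 1) * (ρ u' - 1) - s := by
          rw [← hst]
          abel
        rw [h10, h11]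
        noncomm_ring
      rw [h9]
      exact J'.sub_mem (hadm.conj z t ht) ht
    -- multiply by the inverse of `e u'`
    have heA' : ∀ b ∈ A, ρ b * ρ e = ρ e * ρ b := fun b hb => by
      rw [← map_mul, ← map_mul, hA b hb e heA]
    have huA : u ∈ A := hBA huB
    have huA' : u' ∈ A := hBA huB'
    have hwA : u * u'⁻¹ ∈ A := A.mul_mem huA (A.inv_mem huA')
    have h9 : (ρ (u * u'⁻¹) - 1) * (ρ (u * u'⁻¹) - 1) ∈ J' := by
      have h10 := hadm.left _ (A.inv_mem (A.mul_mem heA huA')) _ h8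
      have h11 : ρ (e * u')⁻¹ * ((ρ (u * u'⁻¹) - 1) * ρ e * (ρ u - ρ u')) =
          (ρ (u * u'⁻¹) - 1) * (ρ (u * u'⁻¹) - 1) := by
        have k1 : ρ u - ρ u' = (ρ (u * u'⁻¹) - 1) * ρ u' := by
          rw [sub_mul, ← map_mul, one_mul, inv_mul_cancel_right]
        have k2 : (ρ (u * u'⁻¹) - 1) * ρ e = ρ e * (ρ (u * u'⁻¹) - 1) := by
          rw [sub_mul, mul_sub, heA' _ hwA, one_mul, mul_one]
        have k3 : (ρ (u * u'⁻¹) - 1) * ρ u' = ρ u' * (ρ (u * u'⁻¹) - 1) := by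
          rw [sub_mul, mul_sub, ← map_mul, ← map_mul, hA _ hwA _ huA', one_mul, mul_one]
        have k4 : ρ (e * u')⁻¹ * (ρ e * ρ u') = 1 := by
          rw [← map_mul, ← map_mul, inv_mul_cancel, map_one]
        calc ρ (e * u')⁻¹ * ((ρ (u * u'⁻¹) - 1) * ρ e * (ρ u - ρ u'))
            = ρ (e * u')⁻¹ * ((ρ e * (ρ (u * u'⁻¹) - 1)) *
                ((ρ (u * u'⁻¹) - 1) * ρ u')) := by rw [k1, k2]
          _ = ρ (e * u')⁻¹ * (ρ e * ((ρ (u * u'⁻¹) - 1) *
                ((ρ (u * u'⁻¹) - 1) * ρ u'))) := by simp only [mul_assoc]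
          _ = ρ (e * u')⁻¹ * (ρ e * ((ρ (u * u'⁻¹) - 1) *
                (ρ u' * (ρ (u * u'⁻¹) - 1)))) := by rw [k3]
          _ = ρ (e * u')⁻¹ * (ρ e * (((ρ (u * u'⁻¹) - 1) * ρ u') *
                (ρ (u * u'⁻¹) - 1))) := by simp only [mul_assoc]
          _ = ρ (e * u')⁻¹ * (ρ e * ((ρ u' * (ρ (u * u'⁻¹) - 1)) *
                (ρ (u * u'⁻¹) - 1))) := by rw [k3]
          _ = (ρ (e * u')⁻¹ * (ρ e * ρ u')) * ((ρ (u * u'⁻¹) - 1) *
                (ρ (u * u'⁻¹) - 1)) := by simp only [mul_assoc]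
          _ = _ := by rw [k4, one_mul]
      rw [h11] at h10
      exact h10
    have h10 : (ρ (u * u'⁻¹) - 1) ^ 4 = 0 := by
      have h11 := hsq _ h9 _ h9
      rw [← h11]
      noncomm_ring
    rw [← hw] at h10
    have h11 := h4 z e heA h10
    -- so `z` centralises `B ⊔ ⟨e⟩`
    have hzC : z ∈ centralizer ((B ⊔ zpowers e : Subgroup X) : Set X) := by
      rw [Subgroup.mem_centralizer_iff]
      intro g hg
      obtain ⟨b, hb, c, hc', rfl⟩ := Subgroup.mem_sup_of_normal_left.1 hg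
      obtain ⟨k, rfl⟩ := Subgroup.mem_zpowers_iff.1 hc'
      have c1 : Commute b z := (hzc b hb).symm
      have c2 : Commute e z := by
        have h12 : z * e * z⁻¹ = e := by
          have h13 := mul_inv_eq_one.1 h11
          exact h13
        have h13 : z * e = e * z := by
          calc z * e = (z * e * z⁻¹) * z := by group
            _ = e * z := by rw [h12]
        exact h13.symm
      exact c1.mul_left (c2.zpow_left k)
    have h12 : r = q := by
      rw [← QuotientGroup.out_eq' r, ← QuotientGroup.out_eq' q, QuotientGroup.eq, ← hx, ← hy,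
        Subgroup.mem_subgroupOf]
      show (y : X)⁻¹ * (x : X) ∈ _
      rw [← hz]
      exact hzC
    exact h12.symm
  have hPA : P A := by
    have hfin : {B : Subgroup X | P B}.Finite := Set.toFinite _
    obtain ⟨B, hB, hmax⟩ := hfin.exists_maximal ⟨⊥, hbot⟩
    by_cases hne : B = A
    · rw [hne] at hB
      exact hB
    · obtain ⟨B', hlt, hB'⟩ := hstep B hB hne
      exact absurd (hmax hB' hlt.le) (not_le_of_gt hlt)
  refine hPA.2.2.trans (le_trans (le_of_eq ?_) hidx)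
  rw [sup_eq_left.2 hJ']

/-- THEOREM T3 (helper43). -/
theorem card_le_sq {p : ℕ} [Fact p.Prime] [Finite V] [Finite X] (hX : IsPGroup p X)
    (hV : ∃ k, Nat.card V = p ^ k) (ρ : X →* AddMonoid.End V)
    (h4 : ∀ u, (ρ u - 1) ^ 4 = 0 → u = 1) : Nat.card X ≤ Nat.card V ^ 2 := by
  obtain ⟨A, hN, hab, hcent⟩ := exists_self_centralizing hX
  have h1 : Nat.card A ≤ Nat.card V := card_abelian_le hX hV ρ hab fun a _ h =>
    h4 a (by
      have h2 : (ρ a - 1) ^ 4 = (ρ a - 1) ^ 2 * (ρ a - 1) ^ 2 := by rw [← pow_add]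
      rw [h2, h, zero_mul])
  have h2 : A.index ≤ Nat.card V := by
    have h3 := index_centralizer_le hX hV ρ hab fun x e _ h => h4 _ h
    rwa [hcent] at h3
  rw [← Subgroup.card_mul_index A, pow_two]
  exact Nat.mul_le_mul h1 h2

end Pool.Agent.Helper92.T3
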